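import Pool.Agent.X99.SY.E

/-!
# The Bodirsky-Pinsker dichotomy holds for almost all templates of every density

Let `𝔹` be a homogeneous structure in a finite relational signature, `G = Aut(𝔹)`, `Γ` a finite family of `G`-invariant
relations. A `G`-invariant relation of arity `k` is a union of orbits of `k`-tuples; let `N` be the number of these orbits. For
ALL numbers `s` with `exp(-c k) N ≤ s ≤ (1 - exp(-c k)) N`, all but a doubly exponentially small proportion of the relations `R`
which consist of exactly `s` orbits make `(B; Γ, R)` either a template with a constant endomorphism or a template which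
pp-defines every relation that is first-order definable in `𝔹`. The team's `AlmostAllReducts` is about all relations, almost all
of which have about `N / 2` orbits; here the relations can be sparse (or dense), with an exponentially small density.

Definitions. From `Pool.Agent.W994.AR` (as in `AlmostAllReducts`): `Str σ ar B`: a structure on `B`, one relation
`Set (Fin (ar i) → B)` for each symbol `i : σ`; `autGroup 𝔹`, `Homogeneous`: as in the problem; `Invar G S`: `S` is invariant
under the group `G` of permutations of `B`; `InvRel G (Fin k)`: the type of all `G`-invariant relations of arity `k`;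
`Orb G (Fin k)`: the type of the orbits of `G` on the `k`-tuples; `expand Γ R`: the structure with the relations of `Γ` and the
relations `R j`; `ConstEndo 𝔸`: for some `b` the constant map with value `b` maps every nonempty relation of `𝔸` into itself;
`PPConstructsK3 𝔸`: `𝔸` pp-constructs `K_3`; `PPMax G 𝔸`: `𝔸` pp-constructs `K_3`, every `G`-invariant relation is pp-definable
in `𝔸`, and every polymorphism of `𝔸` is `x ↦ e (x i)` for a coordinate `i` and a map `e` which agrees with elements of `G` on
finite sets; `constOrbits G Γ`: the number of orbits of `G` on `B` all of whose points `b` have `(b, ..., b)` in every nonempty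
relation of `Γ`. From `Pool.Agent.X99.SY.D`: `size R`: the number of the orbits of `k`-tuples contained in `R`.
-/

set_option autoImplicit false

namespace Pool.Agent.Results.MP_6ab439_lc.AllDensities

open Pool.Agent.W994.AR Pool.Agent.X99.SY

/-- The template `(B; Γ, R)`. -/
abbrev template {B ι : Type} {arΓ : ι → ℕ} (Γ : Str ι arΓ B) {G : Subgroup (Equiv.Perm B)} {k : ℕ}
    (R : InvRel G (Fin k)) : Str (ι ⊕ Fin 1) (Sum.elim arΓ fun _ => k) B :=
  expand Γ (τ := Fin 1) (k := fun _ => k) (fun _ => R.1)

theorem result {B σ ι : Type} [Nontrivial B] [Finite σ] [Finite ι] {arB : σ → ℕ} {arΓ : ι → ℕ}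
    (𝔹 : Str σ arB B) (h𝔹 : Homogeneous 𝔹) (Γ : Str ι arΓ B)
    (hΓ : ∀ l, Invar (autGroup 𝔹) (Γ l)) :
    -- the number of the orbits is finite and at most exponential in a power of `k`
    (∀ k, Finite (Orb (autGroup 𝔹) (Fin k))) ∧
    (∃ K r : ℕ, ∀ k : ℕ, 1 ≤ k → (Nat.card (Orb (autGroup 𝔹) (Fin k)) : ℝ) + 1 ≤ Real.exp (K * (k : ℝ) ^ r)) ∧
    -- the number of the relations with `s` orbits
    (∀ k s : ℕ, Nat.card {R : InvRel (autGroup 𝔹) (Fin k) // size R = s} =
      (Nat.card (Orb (autGroup 𝔹) (Fin k))).choose s) ∧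
    ∃ (k₀ : ℕ) (C c : ℝ), 0 < C ∧ 0 < c ∧ ∀ k s : ℕ, k₀ ≤ k →
      Real.exp (-(c * k)) * Nat.card (Orb (autGroup 𝔹) (Fin k)) ≤ s →
      (s : ℝ) ≤ (1 - Real.exp (-(c * k))) * Nat.card (Orb (autGroup 𝔹) (Fin k)) →
      -- all but a doubly exponentially small proportion are trivial or as hard as possible
      (Nat.card {R : InvRel (autGroup 𝔹) (Fin k) // size R = s ∧
          ¬ (ConstEndo (template Γ R) ∨ PPMax (autGroup 𝔹) (template Γ R))} : ℝ) ≤
        C * Real.exp (-(1 / 8 * Real.exp (c * k))) * Nat.card {R : InvRel (autGroup 𝔹) (Fin k) // size R = s} ∧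
      -- the number of those which pp-construct `K_3`
      ((Nat.card (Orb (autGroup 𝔹) (Fin k)) - constOrbits (autGroup 𝔹) Γ).choose s : ℝ) -
          C * Real.exp (-(1 / 8 * Real.exp (c * k))) * Nat.card {R : InvRel (autGroup 𝔹) (Fin k) // size R = s} ≤
        Nat.card {R : InvRel (autGroup 𝔹) (Fin k) // size R = s ∧ PPConstructsK3 (template Γ R)} ∧
      Nat.card {R : InvRel (autGroup 𝔹) (Fin k) // size R = s ∧ PPConstructsK3 (template Γ R)} ≤
        (Nat.card (Orb (autGroup 𝔹) (Fin k)) - constOrbits (autGroup 𝔹) Γ).choose s := by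
  classical
  have hfin : ∀ k, Finite (Orb (autGroup 𝔹) (Fin k)) := fun k => hom_finite h𝔹 (Fin k)
  obtain ⟨K, r, hK⟩ := orb_card_le h𝔹
  refine ⟨hfin, ⟨K, r, hK⟩, fun k s => ?_, ?_⟩
  · have := hfin k
    exact card_size _ k s
  obtain ⟨C, c, hC, hc, hb⟩ := size_bound (autGroup 𝔹) (dim arB arΓ) (dim_pos _ _) hfin K r hK
  refine ⟨dim arB arΓ, C, c, hC, hc, fun k s hk hs1 hs2 => ?_⟩
  have := hfin k
  have hfinI : Finite (InvRel (autGroup 𝔹) (Fin k)) := finite_inv _ _
  have hbd := hb k s hk hs1 hs2
  have hk1 : 1 ≤ k := le_trans (dim_pos _ _) hk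
  refine ⟨le_trans ?_ hbd, ?_, ?_⟩
  · have h2 : Nat.card {R : InvRel (autGroup 𝔹) (Fin k) // size R = s ∧
          ¬ (ConstEndo (template Γ R) ∨ PPMax (autGroup 𝔹) (template Γ R))} ≤
        Nat.card {R : InvRel (autGroup 𝔹) (Fin k) // size R = s ∧
          ¬ Rich (autGroup 𝔹) (Fin (dim arB arΓ)) R.1} := by
      apply Nat.card_le_card_of_injective (fun R => ⟨R.1, R.2.1, fun h => R.2.2 (by
        by_cases hcst : ConstEndo (template Γ R.1)
        · exact Or.inl hcst
        · exact Or.inr (max_of_rich 𝔹 h𝔹 Γ hΓ (t := 1) Nat.one_pos (k := fun _ => k) (fun _ => R.1)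
            (fun _ => h) hcst))⟩)
      intro R R' h
      exact Subtype.ext (congrArg (fun x => x.1) h)
    exact_mod_cast h2
  · -- lower bound
    have hcount := size_const_count (G := autGroup 𝔹) Γ k hk1 s
    rw [← hcount]
    have h3 : Nat.card {R : InvRel (autGroup 𝔹) (Fin k) // size R = s ∧
          ∀ b, (∀ l, (Γ l).Nonempty → (fun _ => b) ∈ Γ l) → (fun _ => b) ∉ R.1} ≤
        Nat.card {R : InvRel (autGroup 𝔹) (Fin k) // size R = s ∧ PPConstructsK3 (template Γ R)} +
        Nat.card {R : InvRel (autGroup 𝔹) (Fin k) // size R = s ∧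
          ¬ Rich (autGroup 𝔹) (Fin (dim arB arΓ)) R.1} := by
      rw [← Nat.card_sum]
      let F : {R : InvRel (autGroup 𝔹) (Fin k) // size R = s ∧
            ∀ b, (∀ l, (Γ l).Nonempty → (fun _ => b) ∈ Γ l) → (fun _ => b) ∉ R.1} →
          {R : InvRel (autGroup 𝔹) (Fin k) // size R = s ∧ PPConstructsK3 (template Γ R)} ⊕
          {R : InvRel (autGroup 𝔹) (Fin k) // size R = s ∧ ¬ Rich (autGroup 𝔹) (Fin (dim arB arΓ)) R.1} := fun R =>
        if h : PPConstructsK3 (template Γ R.1) then Sum.inl ⟨R.1, R.2.1, h⟩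
        else Sum.inr ⟨R.1, R.2.1, fun hrich => h (by
          have hcst : ¬ ConstEndo (template Γ R.1) := by
            rintro ⟨b, hb⟩
            refine R.2.2 b ?_ ?_
            · rintro l ⟨v, hv⟩
              exact hb (Sum.inl l) v hv
            · obtain ⟨v, hv⟩ := rich_nonempty (dim_ge arB arΓ) hrich
              exact hb (Sum.inr 0) v hv
          exact (max_of_rich 𝔹 h𝔹 Γ hΓ (t := 1) Nat.one_pos (k := fun _ => k) (fun _ => R.1)
            (fun _ => hrich) hcst).1)⟩
      apply Nat.card_le_card_of_injective F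
      intro R R' h
      simp only [F] at h
      split_ifs at h with h4 h5 h5
      · simp only [Sum.inl.injEq, Subtype.mk.injEq] at h
        exact Subtype.ext h
      · simp only [Sum.inr.injEq, Subtype.mk.injEq] at h
        exact Subtype.ext h
    have h4 : (Nat.card {R : InvRel (autGroup 𝔹) (Fin k) // size R = s ∧
          ∀ b, (∀ l, (Γ l).Nonempty → (fun _ => b) ∈ Γ l) → (fun _ => b) ∉ R.1} : ℝ) ≤
        Nat.card {R : InvRel (autGroup 𝔹) (Fin k) // size R = s ∧ PPConstructsK3 (template Γ R)} +
        Nat.card {R : InvRel (autGroup 𝔹) (Fin k) // size R = s ∧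
          ¬ Rich (autGroup 𝔹) (Fin (dim arB arΓ)) R.1} := by exact_mod_cast h3
    linarith
  · -- upper bound
    rw [← size_const_count (G := autGroup 𝔹) Γ k hk1 s]
    apply Nat.card_le_card_of_injective (fun R => (⟨R.1, R.2.1, fun b hb hR => by
      refine not_k3_of_const ⟨b, ?_⟩ R.2.2
      rintro (l | j) v hv
      · exact hb l ⟨v, hv⟩
      · exact hR⟩ : {R : InvRel (autGroup 𝔹) (Fin k) // size R = s ∧
          ∀ b, (∀ l, (Γ l).Nonempty → (fun _ => b) ∈ Γ l) → (fun _ => b) ∉ R.1}))
    intro R R' h
    exact Subtype.ext (congrArg (fun x => x.1) h)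

end Pool.Agent.Results.MP_6ab439_lc.AllDensities
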