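import Pool.Agent.TH668.Csp.P1

/-!
# The hard side of the Bodirsky-Pinsker dichotomy: exponential lower bounds for randomised real
# circuits with few gates that are not monotone, for exact and for promise problems

Let `𝔸` be a relational structure with an arbitrary, possibly infinite, domain which pp-constructs
`K_3`. The conjecture says that in its scope these are exactly the templates whose constraint
satisfaction problem is not in P (if P ≠ NP). Here it is proved, without any hypothesis and also
outside the scope of the conjecture (neither ω-categoricity nor finite boundedness is used), that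
`CSP(𝔸)` needs exponential size in the following model. The input bits of a circuit say which
constraints over the variables `0, ..., N - 1` are present; its gates are arbitrary nondecreasing
functions of two real numbers, and it has further gates, the `j`-th of which is an arbitrary
real-valued function of `w j` bits of the form `threshold ≤ value of an earlier gate`. If
`∏ (w j + 1) ≤ N ^ a` for some `a < 1` (for example, `a log₂ N` NOT gates) then circuits which decide
`CSP(𝔸)` with a fixed advantage `ξ` (randomised, two-sided error) have more than `2 ^ (N ^ c)` gates and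
wires, for every `c < (1 - a) / 52` and all large `N`.

The second part is the same bound for promise problems: the circuits only tell the instances that are
satisfiable in `𝔸` from those that are not satisfiable in `𝔹`, where the pair `(𝔸, 𝔹)`
pp-constructs, for some `K ≥ 3`, the problem of telling `K`-colourable graphs from graphs without
colouring with `2 K - 2` colours.

Definitions used in the statement: `Str`, `PPConstructsK3` (`Pool/Agent/W994/AR/PP.lean`, `Hom.lean`),
`Constructs` (`Pool/Agent/TH668/Csp/P1.lean`), `Con`, `conInputs` (`Pool/Agent/H630SD/Model.lean`), `Sat`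
(`Pool/Agent/H630CD/Model.lean`), `PDecides` (`Pool/Agent/H630AD/PGen.lean`), `FProg`, `combos`,
`wires` (`Pool/Agent/H630VC/FreeModel.lean`).
-/

set_option autoImplicit false

namespace Pool.Agent.Results.MP_6ab439_lc.HardSideLowerBound

open Pool.Agent.TH668.Csp H630VC H630SD H630AC
open Pool.Agent.W994.AR (Str PPConstructsK3)

/-- All randomised circuits (families `f r`, `r ∈ R`, of outputs of circuits `(l r, q r)` with
monotone real gates and further gates) which accept with advantage `ξ` the instances with `N`
variables that are not satisfiable in `𝔹` and reject those that are satisfiable in `𝔸`, and whose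
further gates satisfy `∏ (w j + 1) ≤ N ^ a`, have size more than `2 ^ (N ^ c)`. -/
def Needs {A B ι : Type} {ar : ι → ℕ} (𝔸 : Str ι ar A) (𝔹 : Str ι ar B) (a c ξ : ℝ) (N : ℕ) :
    Prop :=
  ∀ (R : Type) [Fintype R] [Nonempty R]
    (f : R → Set (Con ar (Fin N)) → ℝ) (l : R → List (Set (Con ar (Fin N)) → ℝ))
    (q : R → List (List ((Set (Con ar (Fin N)) → ℝ) × ℝ))),
    (∀ r, FProg (conInputs ar (Fin N)) (l r) (q r)) → (∀ r, f r ∈ l r) →
    PDecides (fun F => ¬ H630CD.Sat 𝔹 F) (fun F => H630CD.Sat 𝔸 F) ξ f →
    (∀ r, (combos (q r) : ℝ) ≤ (N : ℝ) ^ a) →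
    ∃ r, (2 : ℝ) ^ ((N : ℝ) ^ c) < (l r).length + wires (q r)

/-- Lower bounds for `CSP(𝔸)`, if `𝔸` pp-constructs `K_3`, and for the promise problems `(𝔸, 𝔹)`
which pp-construct `K` versus `2 K - 2` colours, `K ≥ 3`. -/
theorem result {A ι : Type} {ar : ι → ℕ} (𝔸 : Str ι ar A) (a c ξ : ℝ) (ha0 : 0 ≤ a) (ha : a < 1)
    (hc0 : 0 < c) (hc : c < (1 - a) / 52) (hξ : 0 < ξ) :
    (PPConstructsK3 𝔸 → ∃ N₀ : ℕ, ∀ N : ℕ, N₀ ≤ N → Needs 𝔸 𝔸 a c ξ N) ∧
    ∀ (B : Type) (𝔹 : Str ι ar B) (K : ℕ), 3 ≤ K → Constructs 𝔸 𝔹 K →
      ∃ N₀ : ℕ, ∀ N : ℕ, N₀ ≤ N → Needs 𝔸 𝔹 a c ξ N :=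
  ⟨fun h => lower 𝔸 𝔸 3 le_rfl (constructs_of_k3 𝔸 h) a c ξ ha0 ha hc0 hc hξ,
    fun _ 𝔹 K hK h => lower 𝔸 𝔹 K hK h a c ξ ha0 ha hc0 hc hξ⟩

end Pool.Agent.Results.MP_6ab439_lc.HardSideLowerBound
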