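import Pool.Agent.X99.SY.G

/-!
# Almost all injective relations over an ordered homogeneous structure give templates which pp-construct `K_3`

Let `𝔹` be an infinite homogeneous structure in a finite relational signature whose automorphisms preserve a linear order of
the domain, and `G = Aut(𝔹)`. A `G`-invariant relation of arity `k` is injective if it consists of injective tuples; it is
then a union of orbits of injective `k`-tuples, and there are at least `k!` of these orbits. Injective relations are a
vanishing proportion of all the invariant relations, so that the statements on almost all templates (`AlmostAllReducts`,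
`AllDensities`) say nothing on them; and the proof there needs tuples with equal coordinates. Here all but a proportion
`exp(K k^r - c k!)` of the injective relations `R` of arity `k` are such that `(B; R)` pp-constructs `K_3` and pp-defines every
injective `G`-invariant relation of arity `m`.

Definitions. From `Pool.Agent.W994.AR` (as in `AlmostAllReducts`): `Str σ ar B`: a structure on `B`, one relation
`Set (Fin (ar i) → B)` for each symbol `i : σ`; `autGroup 𝔹`, `Homogeneous`: as in the problem; `Invar G S`: `S` is invariant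
under the group `G` of permutations of `B`; `expand Γ R`: the structure with the relations of `Γ` and the relations `R j`;
`PPDef 𝔸 S`: `S` is defined in `𝔸` by an existentially quantified finite conjunction of atomic formulas; `PPConstructsK3 𝔸`:
`𝔸` pp-constructs `K_3`. From `Pool.Agent.X99.SY.F`: `InjOrb G k`: the type of the orbits of injective `k`-tuples;
`InjRel G k`: the type of the `G`-invariant relations of arity `k` all of whose tuples are injective.
-/

set_option autoImplicit false

namespace Pool.Agent.Results.MP_6ab439_lc.InjectiveRelations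

open Pool.Agent.W994.AR Pool.Agent.X99.SY

/-- The template `(B; Γ, R)`. -/
abbrev template {B ι : Type} {arΓ : ι → ℕ} (Γ : Str ι arΓ B) {G : Subgroup (Equiv.Perm B)} {k : ℕ}
    (R : InjRel G k) : Str (ι ⊕ Fin 1) (Sum.elim arΓ fun _ => k) B :=
  expand Γ (τ := Fin 1) (k := fun _ => k) (fun _ => R.1.1)

theorem result {B σ : Type} [Infinite B] [LinearOrder B] [Finite σ] {arB : σ → ℕ} (𝔹 : Str σ arB B)
    (h𝔹 : Homogeneous 𝔹) (hord : ∀ g ∈ autGroup 𝔹, StrictMono g) :
    -- the number of injective relations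
    (∀ k : ℕ, Finite (InjOrb (autGroup 𝔹) k) ∧ k.factorial ≤ Nat.card (InjOrb (autGroup 𝔹) k) ∧
      Nat.card (InjRel (autGroup 𝔹) k) = 2 ^ Nat.card (InjOrb (autGroup 𝔹) k)) ∧
    ∀ m : ℕ, ∃ (k₀ K r : ℕ) (c : ℝ), 0 < c ∧ ∀ k : ℕ, k₀ ≤ k →
      -- all but a tiny proportion of them pp-construct `K_3` and pp-define all injective relations of arity `m`
      (Nat.card {R : InjRel (autGroup 𝔹) k // ¬ ∀ (ι : Type) (arΓ : ι → ℕ) (Γ : Str ι arΓ B),
          PPConstructsK3 (template Γ R) ∧ ∀ S : Set (Fin m → B), Invar (autGroup 𝔹) S →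
            (∀ v ∈ S, Function.Injective v) → PPDef (template Γ R) S} : ℝ) ≤
        Real.exp (K * (k : ℝ) ^ r - c * k.factorial) * Nat.card (InjRel (autGroup 𝔹) k) := by
  classical
  have hfin : ∀ (V : Type) [Finite V], Finite (Orb (autGroup 𝔹) V) := fun V _ => hom_finite h𝔹 V
  refine ⟨fun k => ?_, fun m => ?_⟩
  · have h1 := hfin (Fin k)
    have h2 : Finite (InjOrb (autGroup 𝔹) k) := inferInstance
    refine ⟨h2, factorial_le hord k, ?_⟩
    have := Fintype.ofFinite (InjOrb (autGroup 𝔹) k)
    rw [Nat.card_congr (injEquiv (autGroup 𝔹) k), Nat.card_eq_fintype_card, Fintype.card_set,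
      Nat.card_eq_fintype_card]
  obtain ⟨K, r, hK⟩ := orb_card_le h𝔹
  set a : ℕ := max (Nat.card (Orb (autGroup 𝔹) (Fin m))) (Nat.card (Orb (autGroup 𝔹) (Fin 3 ⊕ Fin 3))) with ha
  refine ⟨max (max m 6) (a + 1), K * (a + 1), r, (2⁻¹ : ℝ) ^ (a + 1) / (a + 1) ^ 2, by positivity, fun k hk => ?_⟩
  have hkm : m ≤ k := le_trans (le_trans (le_max_left _ _) (le_max_left _ _)) hk
  have hk6 : 6 ≤ k := le_trans (le_trans (le_max_right _ _) (le_max_left _ _)) hk
  have hka : a < k.factorial := lt_of_lt_of_le (le_trans (le_max_right _ _) hk) (Nat.self_le_factorial k)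
  have hfk := hfin (Fin k)
  have hfm := hfin (Fin m)
  have hf6 := hfin (Fin 3 ⊕ Fin 3)
  have hfinO : Finite (InjOrb (autGroup 𝔹) k) := inferInstance
  have hfinR : Finite (InjRel (autGroup 𝔹) k) := Finite.of_equiv _ (injEquiv (autGroup 𝔹) k).symm
  have hgood : ∀ R : InjRel (autGroup 𝔹) k, Sep (autGroup 𝔹) a R.1.1 →
      ∀ (ι : Type) (arΓ : ι → ℕ) (Γ : Str ι arΓ B),
          PPConstructsK3 (template Γ R) ∧ ∀ S : Set (Fin m → B), Invar (autGroup 𝔹) S →
            (∀ v ∈ S, Function.Injective v) → PPDef (template Γ R) S := by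
    intro R hR ι arΓ Γ
    refine ⟨?_, fun S hS hSi => ?_⟩
    · apply K3_of_pp
      exact pp_all_inj hord Γ (by omega) (by simpa using hk6) hka (le_max_right _ _) R.1.2 R.2 hR (K3rel_invar hord)
        (fun v hv => hv.1)
    · exact (pp_all_inj hord Γ (by omega) (by simpa using hkm) hka (le_max_left _ _) R.1.2 R.2 hR hS hSi).toPPDef
  have hle : Nat.card {R : InjRel (autGroup 𝔹) k // ¬ ∀ (ι : Type) (arΓ : ι → ℕ) (Γ : Str ι arΓ B),
          PPConstructsK3 (template Γ R) ∧ ∀ S : Set (Fin m → B), Invar (autGroup 𝔹) S →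
            (∀ v ∈ S, Function.Injective v) → PPDef (template Γ R) S} ≤
      Nat.card {R : InjRel (autGroup 𝔹) k // ¬ Sep (autGroup 𝔹) a R.1.1} := by
    apply Nat.card_le_card_of_injective (fun R => ⟨R.1, fun h => R.2 (hgood R.1 h)⟩)
    intro R R' h
    exact Subtype.ext (congrArg (fun x => x.1) h)
  have hN : (Nat.card (Orb (autGroup 𝔹) (Fin k)) : ℝ) ≤ Real.exp (K * (k : ℝ) ^ r) := by
    have := hK k (by omega)
    linarith
  calc (Nat.card {R : InjRel (autGroup 𝔹) k // ¬ ∀ (ι : Type) (arΓ : ι → ℕ) (Γ : Str ι arΓ B),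
          PPConstructsK3 (template Γ R) ∧ ∀ S : Set (Fin m → B), Invar (autGroup 𝔹) S →
            (∀ v ∈ S, Function.Injective v) → PPDef (template Γ R) S} : ℝ)
      ≤ Nat.card {R : InjRel (autGroup 𝔹) k // ¬ Sep (autGroup 𝔹) a R.1.1} := by exact_mod_cast hle
    _ ≤ (Nat.card (Orb (autGroup 𝔹) (Fin k)) : ℝ) ^ (a + 1) *
      Real.exp (-((2⁻¹ : ℝ) ^ (a + 1) * (k.factorial / (a + 1) ^ 2))) * Nat.card (InjRel (autGroup 𝔹) k) :=
        sep_count hord a k
    _ ≤ Real.exp (K * (k : ℝ) ^ r) ^ (a + 1) *
      Real.exp (-((2⁻¹ : ℝ) ^ (a + 1) * (k.factorial / (a + 1) ^ 2))) * Nat.card (InjRel (autGroup 𝔹) k) := by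
        apply mul_le_mul_of_nonneg_right _ (Nat.cast_nonneg _)
        apply mul_le_mul_of_nonneg_right _ (Real.exp_pos _).le
        exact pow_le_pow_left₀ (Nat.cast_nonneg _) hN _
    _ = _ := by
        rw [← Real.exp_nat_mul, ← Real.exp_add]
        congr 2
        push_cast
        ring

end Pool.Agent.Results.MP_6ab439_lc.InjectiveRelations
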