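import Pool.Agent.X99.SY.B

/-!
# The Bodirsky-Pinsker dichotomy holds for almost all templates with symmetric relations

For every homogeneous structure `𝔹` in a finite relational signature, every finite family `Γ` of `Aut(𝔹)`-invariant relations
and ARBITRARY groups `H` of permutations of the `k` coordinates (for instance the symmetric group, or the cyclic shifts), all
but an exponentially small proportion of the relations `R` of arity `k` which are invariant under `Aut(𝔹)` and under `H` make
`(B; Γ, R)` either a template with a constant endomorphism or a template which pp-defines every relation that is first-order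
definable in `𝔹`. The symmetric relations are a negligible proportion of all invariant relations, so that the theorem for the
latter (the team's `AlmostAllReducts`) says nothing on them.

Definitions. From `Pool.Agent.W994.AR` (as in `AlmostAllReducts`): `Str σ ar B`: a structure on `B`, one relation
`Set (Fin (ar i) → B)` for each symbol `i : σ`; `autGroup 𝔹`, `Homogeneous`, `FinitelyBounded`: as in the problem; `Invar G S`:
`S` is invariant under the group `G` of permutations of `B`; `InvRel G (Fin k)`: the type of all `G`-invariant relations of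
arity `k`; `expand Γ R`: the structure with the relations of `Γ` and the relations `R j`; `ConstEndo 𝔸`: for some `b` the
constant map with value `b` maps every nonempty relation of `𝔸` into itself; `PPConstructsK3 𝔸`: `𝔸` pp-constructs `K_3`;
`PPMax G 𝔸`: `𝔸` pp-constructs `K_3`, every `G`-invariant relation is pp-definable in `𝔸`, and every polymorphism of `𝔸` is
`x ↦ e (x i)` for a coordinate `i` and a map `e` which agrees with elements of `G` on finite sets; `constOrbits G Γ`: the
number of orbits of `G` on `B` all of whose points `b` have `(b, ..., b)` in every nonempty relation of `Γ`.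
From `Pool.Agent.X99.SY.A`: `CoordInvar H R`: `v ∘ σ ∈ R` for all `v ∈ R` and `σ ∈ H`; `SymRel G H`: the type of the relations in
`InvRel G (Fin k)` which satisfy `CoordInvar H`.

Proof idea. `R` is rich if for every nonconstant tuple `v` of a fixed length `M` some word `w` in `M` letters sends `v` outside
`R` and all nonconstant tuples of the other orbits into `R`; rich relations give `PPMax` or `ConstEndo`. The words with `2 ^ i c`
letters `i` (`1 ≤ i < M`) and a majority of letters `0`, for the `c = 1 mod 2 ^ M` up to a constant times `k`, send different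
orbits of nonconstant tuples to different orbits, even up to all permutations of the coordinates (compare the multiplicities of
the values, which are `c` times sums of different powers of `2`). So the events for different `c` are independent.
-/

set_option autoImplicit false

namespace Pool.Agent.Results.MP_6ab439_lc.SymmetricTemplates

open Pool.Agent.W994.AR Pool.Agent.X99.SY

theorem result {B σ ι : Type} [Nontrivial B] [Finite σ] [Finite ι] {arB : σ → ℕ} {arΓ : ι → ℕ}
    (𝔹 : Str σ arB B) (h𝔹 : Homogeneous 𝔹) (Γ : Str ι arΓ B)
    (hΓ : ∀ l, Invar (autGroup 𝔹) (Γ l)) :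
    -- there are finitely many relations of each arity and symmetry type
    (∀ (n : ℕ) (H : Subgroup (Equiv.Perm (Fin n))), Finite (SymRel (autGroup 𝔹) H)) ∧
    (∀ (t : ℕ) (k : Fin t → ℕ) (H : ∀ j, Subgroup (Equiv.Perm (Fin (k j)))) (R : ∀ j, SymRel (autGroup 𝔹) (H j)),
      -- the templates are reducts of homogeneous, finitely bounded structures
      Homogeneous (expand 𝔹 (expand Γ (fun j => (R j).1.1))) ∧
      (FinitelyBounded 𝔹 → FinitelyBounded (expand 𝔹 (expand Γ (fun j => (R j).1.1)))) ∧
      -- templates with a constant endomorphism are trivial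
      (ConstEndo (expand Γ (fun j => (R j).1.1)) →
        ¬ PPConstructsK3 (expand Γ (fun j => (R j).1.1)) ∧
        ∀ (X : Type) (𝕏 : Str (ι ⊕ Fin t) (Sum.elim arΓ k) X),
          (∃ f : X → B, ∀ i, ∀ v ∈ 𝕏 i, (fun j => f (v j)) ∈ expand Γ (fun j => (R j).1.1) i) ↔
            ∀ i, (𝕏 i).Nonempty → (expand Γ (fun j => (R j).1.1) i).Nonempty)) ∧
    ∃ C δ : ℝ, 0 < C ∧ 0 < δ ∧
      -- all but an exponentially small proportion of the other templates are as hard as possible
      (∀ (t : ℕ) (k : Fin t → ℕ) (H : ∀ j, Subgroup (Equiv.Perm (Fin (k j)))) (m : ℕ), 1 ≤ t → (∀ j, m ≤ k j) →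
        (Nat.card {R : ∀ j, SymRel (autGroup 𝔹) (H j) //
          ¬ (ConstEndo (expand Γ (fun j => (R j).1.1)) ∨
              PPMax (autGroup 𝔹) (expand Γ (fun j => (R j).1.1)))} : ℝ) ≤
          t * (C * Real.exp (-(δ * m))) * Nat.card (∀ j, SymRel (autGroup 𝔹) (H j))) ∧
      -- the proportion of the templates which pp-construct `K_3`
      (∀ (n : ℕ) (H : Subgroup (Equiv.Perm (Fin n))), 1 ≤ n →
        ((2⁻¹ : ℝ) ^ constOrbits (autGroup 𝔹) Γ - C * Real.exp (-(δ * n))) * Nat.card (SymRel (autGroup 𝔹) H) ≤
          Nat.card {R : SymRel (autGroup 𝔹) H //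
            PPConstructsK3 (expand Γ (τ := Fin 1) (k := fun _ => n) (fun _ => R.1.1))} ∧
        (Nat.card {R : SymRel (autGroup 𝔹) H //
            PPConstructsK3 (expand Γ (τ := Fin 1) (k := fun _ => n) (fun _ => R.1.1))} : ℝ) ≤
          (2⁻¹ : ℝ) ^ constOrbits (autGroup 𝔹) Γ * Nat.card (SymRel (autGroup 𝔹) H)) := by
  classical
  have hfin : ∀ k, Finite (Orb (autGroup 𝔹) (Fin k)) := fun k => hom_finite h𝔹 (Fin k)
  have hfinS : ∀ (k : ℕ) (H : Subgroup (Equiv.Perm (Fin k))), Finite (SymRel (autGroup 𝔹) H) := fun k H => by
    have := hfin k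
    exact finite_sym _ H
  refine ⟨hfinS, ?_, ?_⟩
  · intro t k H R
    have hinv : ∀ j, Invar (autGroup 𝔹) (expand Γ (fun j => (R j).1.1) j) := by
      rintro (l | j)
      · exact hΓ l
      · exact (R j).1.2
    exact ⟨homogeneous_expand h𝔹 _ hinv, fun h => finitelyBounded_expand h𝔹 h _ hinv,
      fun h => ⟨not_k3_of_const h, fun X 𝕏 => const_csp h X 𝕏⟩⟩
  · obtain ⟨C, δ, hC, hδ, hbd⟩ := sym_bound (autGroup 𝔹) (dim arB arΓ) (dim_pos _ _) hfin
    refine ⟨C, δ, hC, hδ, ?_, ?_⟩
    · intro t k H m ht hm
      have hF : ∀ j, Finite (SymRel (autGroup 𝔹) (H j)) := fun j => hfinS _ (H j)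
      have h1 := pi_bad (fun j => SymRel (autGroup 𝔹) (H j))
        (fun j R => Rich (autGroup 𝔹) (Fin (dim arB arΓ)) R.1.1) (C * Real.exp (-(δ * m))) (fun j => by
          refine (hbd (k j) (H j)).trans ?_
          apply mul_le_mul_of_nonneg_right _ (Nat.cast_nonneg _)
          apply mul_le_mul_of_nonneg_left _ hC.le
          apply Real.exp_le_exp.2
          have h5 : (m : ℝ) ≤ k j := by exact_mod_cast hm j
          have := mul_le_mul_of_nonneg_left h5 hδ.le
          linarith)
      refine le_trans ?_ h1
      have h2 : Nat.card {R : ∀ j, SymRel (autGroup 𝔹) (H j) //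
          ¬ (ConstEndo (expand Γ (fun j => (R j).1.1)) ∨
              PPMax (autGroup 𝔹) (expand Γ (fun j => (R j).1.1)))} ≤
          Nat.card {R : ∀ j, SymRel (autGroup 𝔹) (H j) //
            ¬ ∀ j, Rich (autGroup 𝔹) (Fin (dim arB arΓ)) (R j).1.1} := by
        apply Nat.card_le_card_of_injective (fun R => ⟨R.1, fun h => R.2 (by
          by_cases hcst : ConstEndo (expand Γ (fun j => (R.1 j).1.1))
          · exact Or.inl hcst
          · exact Or.inr (max_of_rich 𝔹 h𝔹 Γ hΓ ht (fun j => (R.1 j).1) h hcst))⟩)
        intro R R' h
        exact Subtype.ext (congrArg (fun x => x.1) h)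
      exact_mod_cast h2
    · intro n H hn
      have := hfin n
      have hSF := hfinS n H
      have hcount := sym_const_count (G := autGroup 𝔹) Γ n hn H
      set Z := {R : SymRel (autGroup 𝔹) H //
        ∀ b, (∀ l, (Γ l).Nonempty → (fun _ => b) ∈ Γ l) → (fun _ => b) ∉ R.1.1} with hZ
      have hcountr : (Nat.card Z : ℝ) =
          (2⁻¹ : ℝ) ^ constOrbits (autGroup 𝔹) Γ * Nat.card (SymRel (autGroup 𝔹) H) := by
        rw [← hcount]
        push_cast
        rw [inv_pow]
        field_simp
      constructor
      · -- lower bound
        have h1 := hbd n H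
        have h3 : Nat.card Z ≤ Nat.card {R : SymRel (autGroup 𝔹) H //
            PPConstructsK3 (expand Γ (τ := Fin 1) (k := fun _ => n) (fun _ => R.1.1))} +
            Nat.card {R : SymRel (autGroup 𝔹) H // ¬ Rich (autGroup 𝔹) (Fin (dim arB arΓ)) R.1.1} := by
          rw [← Nat.card_sum]
          let F : Z → {R : SymRel (autGroup 𝔹) H //
            PPConstructsK3 (expand Γ (τ := Fin 1) (k := fun _ => n) (fun _ => R.1.1))} ⊕
            {R : SymRel (autGroup 𝔹) H // ¬ Rich (autGroup 𝔹) (Fin (dim arB arΓ)) R.1.1} := fun R =>
            if h : PPConstructsK3 (expand Γ (τ := Fin 1) (k := fun _ => n) (fun _ => R.1.1.1)) then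
              Sum.inl ⟨R.1, h⟩
            else Sum.inr ⟨R.1, fun hrich => h (by
              have hcst : ¬ ConstEndo (expand Γ (τ := Fin 1) (k := fun _ => n) (fun _ => R.1.1.1)) := by
                rintro ⟨b, hb⟩
                refine R.2 b ?_ ?_
                · rintro l ⟨v, hv⟩
                  exact hb (Sum.inl l) v hv
                · obtain ⟨v, hv⟩ := rich_nonempty (dim_ge arB arΓ) hrich
                  exact hb (Sum.inr 0) v hv
              exact (max_of_rich 𝔹 h𝔹 Γ hΓ (t := 1) Nat.one_pos (k := fun _ => n) (fun _ => R.1.1)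
                (fun _ => hrich) hcst).1)⟩
          apply Nat.card_le_card_of_injective F
          intro R R' h
          simp only [F] at h
          split_ifs at h with h4 h5 h5
          · simp only [Sum.inl.injEq, Subtype.mk.injEq] at h
            exact Subtype.ext h
          · simp only [Sum.inr.injEq, Subtype.mk.injEq] at h
            exact Subtype.ext h
        have h4 : (Nat.card Z : ℝ) ≤ Nat.card {R : SymRel (autGroup 𝔹) H //
            PPConstructsK3 (expand Γ (τ := Fin 1) (k := fun _ => n) (fun _ => R.1.1))} +
            Nat.card {R : SymRel (autGroup 𝔹) H // ¬ Rich (autGroup 𝔹) (Fin (dim arB arΓ)) R.1.1} := by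
          exact_mod_cast h3
        rw [hcountr] at h4
        rw [sub_mul]
        linarith
      · -- upper bound
        rw [← hcountr]
        have h1 : Nat.card {R : SymRel (autGroup 𝔹) H //
            PPConstructsK3 (expand Γ (τ := Fin 1) (k := fun _ => n) (fun _ => R.1.1))} ≤
            Nat.card Z := by
          apply Nat.card_le_card_of_injective (fun R => (⟨R.1, fun b hb hR => by
            refine not_k3_of_const ⟨b, ?_⟩ R.2
            rintro (l | j) v hv
            · exact hb l ⟨v, hv⟩
            · exact hR⟩ : Z))
          intro R R' h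
          exact Subtype.ext (congrArg (fun x => x.1) h)
        exact_mod_cast h1

end Pool.Agent.Results.MP_6ab439_lc.SymmetricTemplates
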